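import Pool.Agent.N940.OT.Basic

/-!
# Measurability of the transport cost (project OT, part MEAS)
-/

set_option autoImplicit false

open MeasureTheory Filter Topology Finset ProbabilityTheory
open scoped ENNReal NNReal

namespace Pool.Agent.N140.OT.Meas

open Pool.Agent.N940.OT

/-- the lower envelope -/
noncomputable def mm {n : ℕ} (hn : (univ : Finset (Fin n)).Nonempty) (w : Fin n → ℝ)
    (x : Fin n → R2) (z : R2) : ℝ :=
  univ.inf' hn fun i => sq z (x i) - w i

/-- the dual functional -/
noncomputable def DD {n : ℕ} (hn : (univ : Finset (Fin n)).Nonempty) (w : Fin n → ℝ)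
    (x : Fin n → R2) : ℝ :=
  ∫ z, mm hn w x z ∂P + (∑ i, w i) / n

theorem continuous_mm {n : ℕ} (hn : (univ : Finset (Fin n)).Nonempty) (w : Fin n → ℝ) :
    Continuous fun p : (Fin n → R2) × R2 => mm hn w p.1 p.2 := by
  unfold mm
  apply Continuous.finset_inf'_apply
  intro i _
  have h : Continuous fun p : (Fin n → R2) × R2 => sq p.2 (p.1 i) :=
    continuous_sq.comp (continuous_snd.prodMk ((continuous_apply i).comp continuous_fst))
  exact h.sub continuous_const

theorem continuous_mm' {n : ℕ} (hn : (univ : Finset (Fin n)).Nonempty) (w : Fin n → ℝ)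
    (x : Fin n → R2) : Continuous (mm hn w x) :=
  (continuous_mm hn w).comp (continuous_const.prodMk continuous_id)

theorem measurable_DD {n : ℕ} (hn : (univ : Finset (Fin n)).Nonempty) (w : Fin n → ℝ) :
    Measurable (DD hn w) := by
  unfold DD
  have h : StronglyMeasurable (Function.uncurry (mm hn w)) :=
    (continuous_mm hn w).measurable.stronglyMeasurable
  exact (h.integral_prod_right (ν := P)).measurable.add measurable_const

theorem integrable_of_continuous {f : R2 → ℝ} (hf : Continuous f) : Integrable f P := by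
  unfold P
  exact hf.continuousOn.integrableOn_compact isCompact_Om

theorem DD_le {n : ℕ} (hn1 : 1 ≤ n) (hn : (univ : Finset (Fin n)).Nonempty) (hWD : S_WD)
    (w : Fin n → ℝ) (x : Fin n → R2) (hx : ∀ i, x i ∈ Om) : DD hn w x ≤ T n x := by
  set φ := mm hn w x with hφ
  have cφ : Continuous φ := continuous_mm' hn w x
  set ψ : R2 → ℝ := fun y => sInf ((fun z => sq z y - φ z) '' Om) with hψ
  have cψ : Continuous ψ := by
    have hc : Continuous (Function.HasUncurry.uncurry fun (y z : R2) => sq z y - φ z) := by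
      have h1 : Continuous fun p : R2 × R2 => sq p.2 p.1 :=
        continuous_sq.comp (continuous_snd.prodMk continuous_fst)
      exact h1.sub (cφ.comp continuous_snd)
    exact isCompact_Om.continuous_sInf hc
  have hb : ∀ y, BddBelow ((fun z => sq z y - φ z) '' Om) := by
    intro y
    have h1 : Continuous fun z : R2 => sq z y - φ z :=
      (continuous_sq.comp (continuous_id.prodMk continuous_const)).sub cφ
    exact (isCompact_Om.image h1).bddBelow
  have h1 : ∀ z ∈ Om, ∀ y ∈ Om, φ z + ψ y ≤ sq z y := by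
    intro z hz y _
    have : ψ y ≤ sq z y - φ z := csInf_le (hb y) ⟨z, hz, rfl⟩
    linarith
  have h2 := hWD n x φ ψ hn1 hx cφ cψ h1
  have h3 : ∀ i, w i ≤ ψ (x i) := by
    intro i
    have hne : ((fun z => sq z (x i) - φ z) '' Om).Nonempty :=
      ⟨_, x i, hx i, rfl⟩
    apply le_csInf hne
    rintro _ ⟨z, _, rfl⟩
    have : φ z ≤ sq z (x i) - w i := Finset.inf'_le _ (mem_univ i)
    simp only
    linarith
  have h4 : (∑ i, w i) / (n : ℝ) ≤ (∑ i, ψ (x i)) / n :=
    div_le_div_of_nonneg_right (sum_le_sum fun i _ => h3 i) (Nat.cast_nonneg n)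
  unfold DD
  linarith

theorem T_le_two {n : ℕ} (hn1 : 1 ≤ n) (hUP : S_UP) (hSD : S_SD) (x : Fin n → R2)
    (hx : ∀ i, x i ∈ Om) (hi : Function.Injective x) : T n x ≤ 2 := by
  obtain ⟨τ, w, hc⟩ := hSD n x hn1 hx hi
  refine (hUP n x τ hn1 hx hc.meas hc.cell).trans ?_
  have h : ∀ᵐ z ∂P, sq z (x (τ z)) ≤ 2 := by
    filter_upwards [ae_Om] with z hz
    exact sq_le_two hz (hx _)
  have hm : Measurable fun z => sq z (x (τ z)) := by
    have hx' : Measurable fun z : R2 => x (τ z) := (measurable_of_finite x).comp hc.meas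
    exact continuous_sq.measurable.comp (measurable_id.prodMk hx')
  have hi : Integrable (fun z => sq z (x (τ z))) P := by
    refine Integrable.of_bound hm.aestronglyMeasurable 2 ?_
    filter_upwards [h] with z hz
    rw [Real.norm_of_nonneg (sq_nonneg' _ _)]
    exact hz
  calc ∫ z, sq z (x (τ z)) ∂P ≤ ∫ _z : R2, (2 : ℝ) ∂P :=
        integral_mono_ae hi (integrable_const _) h
    _ = 2 := by simp

theorem T_le_DD {n : ℕ} (hn1 : 1 ≤ n) (hn : (univ : Finset (Fin n)).Nonempty) (hUP : S_UP)
    (x : Fin n → R2) (hx : ∀ i, x i ∈ Om) (τ : R2 → Fin n) (w : Fin n → ℝ)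
    (hc : Cells n x τ w) : T n x ≤ DD hn w x := by
  refine (hUP n x τ hn1 hx hc.meas hc.cell).trans (le_of_eq ?_)
  have h1 : ∀ z, sq z (x (τ z)) = mm hn w x z + w (τ z) := by
    intro z
    have h2 : mm hn w x z = sq z (x (τ z)) - w (τ z) := by
      apply le_antisymm
      · exact Finset.inf'_le _ (mem_univ (τ z))
      · exact Finset.le_inf' _ _ fun i _ => hc.opt z i
    rw [h2]
    ring
  have hw : Integrable (fun z => w (τ z)) P := by
    have hm : Measurable fun z : R2 => w (τ z) := (measurable_of_finite w).comp hc.meas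
    refine Integrable.of_bound hm.aestronglyMeasurable (∑ i, |w i|) ?_
    filter_upwards with z
    rw [Real.norm_eq_abs]
    exact single_le_sum (f := fun i => |w i|) (fun i _ => abs_nonneg _) (mem_univ (τ z))
  have h3 : ∫ z, w (τ z) ∂P = (∑ i, w i) / n := by
    have hm : AEMeasurable τ P := hc.meas.aemeasurable
    have h4 : ∫ z, w (τ z) ∂P = ∫ i, w i ∂(P.map τ) := by
      rw [integral_map hm (measurable_of_finite w).aestronglyMeasurable]
    have hp : IsProbabilityMeasure (P.map τ) := Measure.isProbabilityMeasure_map hm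
    rw [h4, integral_fintype (Integrable.of_finite)]
    have h5 : ∀ i, (P.map τ).real {i} = 1 / n := by
      intro i
      rw [map_measureReal_apply hc.meas (measurableSet_singleton i)]
      exact hc.cell i
    simp_rw [h5, smul_eq_mul]
    rw [← mul_sum]
    ring
  calc ∫ z, sq z (x (τ z)) ∂P = ∫ z, (mm hn w x z + w (τ z)) ∂P :=
        integral_congr_ae (Eventually.of_forall h1)
    _ = ∫ z, mm hn w x z ∂P + ∫ z, w (τ z) ∂P :=
        integral_add (integrable_of_continuous (continuous_mm' hn w x)) hw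
    _ = DD hn w x := by rw [h3, DD]

theorem DD_approx {n : ℕ} (hn1 : 1 ≤ n) (hn : (univ : Finset (Fin n)).Nonempty)
    (w : Fin n → ℝ) (x : Fin n → R2) (ε : ℝ) (hε : 0 < ε) :
    ∃ q : Fin n → ℚ, DD hn w x - ε ≤ DD hn (fun i => (q i : ℝ)) x := by
  have h : ∀ i, ∃ q : ℚ, w i - ε < q ∧ (q : ℝ) < w i := fun i =>
    exists_rat_btwn (by linarith)
  choose q hq using h
  refine ⟨q, ?_⟩
  have h1 : ∫ z, mm hn w x z ∂P ≤ ∫ z, mm hn (fun i => (q i : ℝ)) x z ∂P := by
    apply integral_mono (integrable_of_continuous (continuous_mm' hn w x))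
      (integrable_of_continuous (continuous_mm' hn _ x))
    intro z
    apply Finset.le_inf'
    intro i _
    have h2 : mm hn w x z ≤ sq z (x i) - w i := Finset.inf'_le _ (mem_univ i)
    have := (hq i).2
    linarith
  have h2 : (∑ i, w i) / (n : ℝ) - ε ≤ (∑ i, (q i : ℝ)) / n := by
    have hn0 : (0 : ℝ) < n := by exact_mod_cast hn1
    rw [le_div_iff₀ hn0, sub_mul, div_mul_cancel₀ _ hn0.ne']
    have h3 : ∑ i, (w i - ε) ≤ ∑ i, (q i : ℝ) := sum_le_sum fun i _ => (hq i).1.le
    rw [sum_sub_distrib, sum_const, card_univ, Fintype.card_fin, nsmul_eq_mul] at h3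
    linarith
  unfold DD
  linarith

/-- the measurable version of the cost -/
noncomputable def FF {n : ℕ} (hn : (univ : Finset (Fin n)).Nonempty) (x : Fin n → R2) : ℝ :=
  min 2 (max 0 (⨆ q : Fin n → ℚ, min 3 (DD hn (fun i => (q i : ℝ)) x)))

theorem main (hSD : S_SD) (hWD : S_WD) (hUP : S_UP) : S_MEAS := by
  intro n hn1
  have hne : Nonempty (Fin n) := ⟨⟨0, hn1⟩⟩
  have hn : (univ : Finset (Fin n)).Nonempty := univ_nonempty
  refine ⟨FF hn, ?_, ?_, ?_⟩
  · unfold FF
    apply Measurable.min measurable_const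
    apply Measurable.max measurable_const
    apply Measurable.iSup
    intro q
    exact Measurable.min measurable_const (measurable_DD hn _)
  · intro x
    unfold FF
    exact ⟨le_min (by norm_num) (le_max_left _ _), min_le_left _ _⟩
  · intro x hx hi
    have h0 : 0 ≤ T n x := T_nonneg n x
    have h2 : T n x ≤ 2 := T_le_two hn1 hUP hSD x hx hi
    have hle : ∀ q : Fin n → ℚ, min 3 (DD hn (fun i => (q i : ℝ)) x) ≤ T n x := fun q =>
      (min_le_right _ _).trans (DD_le hn1 hn hWD _ x hx)
    have hs : ⨆ q : Fin n → ℚ, min 3 (DD hn (fun i => (q i : ℝ)) x) = T n x := by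
      apply le_antisymm
      · exact ciSup_le hle
      · obtain ⟨τ, w, hc⟩ := hSD n x hn1 hx hi
        have hT := T_le_DD hn1 hn hUP x hx τ w hc
        apply le_of_forall_pos_le_add
        intro ε hε
        obtain ⟨q, hq⟩ := DD_approx hn1 hn w x ε hε
        have h5 : DD hn (fun i => (q i : ℝ)) x ≤ 3 :=
          (DD_le hn1 hn hWD _ x hx).trans (by linarith)
        have h6 : min 3 (DD hn (fun i => (q i : ℝ)) x) ≤
            ⨆ q : Fin n → ℚ, min 3 (DD hn (fun i => (q i : ℝ)) x) := by
          apply le_ciSup (f := fun q : Fin n → ℚ => min 3 (DD hn (fun i => (q i : ℝ)) x)) _ q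
          exact ⟨T n x, by rintro _ ⟨q, rfl⟩; exact hle q⟩
        rw [min_eq_right h5] at h6
        linarith
    unfold FF
    rw [hs, max_eq_right h0, min_eq_right h2]

end Pool.Agent.N140.OT.Meas
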